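import Pool.Agent.Helper74.DIH.Goals

/-!
# Project NW+, packet DIH: D2
-/

set_option autoImplicit false

namespace Pool.Agent.Helper38.DIH

open Pool.Agent.Helper52.Wq2 Pool.Agent.Helper61.NW Pool.Agent.Helper74.DIH
open scoped Nat

universe u

theorem eps_sq {Γ : Type u} [Group Γ] (ε : Γ →* ℤˣ) (a : Γ) : (ε a : ℤ) * (ε a : ℤ) = 1 := by
  rcases Int.units_eq_one_or (ε a) with h | h <;> simp [h]

theorem eps_inv {Γ : Type u} [Group Γ] (ε : Γ →* ℤˣ) (a : Γ) : ε a⁻¹ = ε a := by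
  rw [map_inv]
  rcases Int.units_eq_one_or (ε a) with h | h <;> simp [h]

section

variable {Γ : Type u} [Group Γ] {ε : Γ →* ℤˣ} {h : Γ → ℤ}

theorem h_one (D : Dh ε h) : h 1 = 0 := by
  have := D.coc 1 1
  simp at this
  exact this

theorem h_inv (D : Dh ε h) (a : Γ) : h a⁻¹ = - (ε a : ℤ) * h a := by
  have h1 := D.coc a a⁻¹
  rw [mul_inv_cancel, h_one D] at h1
  have h2 := eps_sq ε a
  have h3 : (ε a : ℤ) * (h a + (ε a : ℤ) * h a⁻¹) = 0 := by rw [← h1, mul_zero]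
  have h4 : (ε a : ℤ) * (h a + (ε a : ℤ) * h a⁻¹) = (ε a : ℤ) * h a + h a⁻¹ := by
    rw [mul_add, ← mul_assoc, h2, one_mul]
  rw [h4] at h3
  linarith

theorem h_zpow (D : Dh ε h) {s : Γ} (hs : ε s = 1) (k : ℤ) : h (s ^ k) = k * h s := by
  have hnat : ∀ k : ℕ, h (s ^ k) = k * h s := by
    intro k
    induction k with
    | zero => simp [h_one D]
    | succ k ih =>
      rw [pow_succ, D.coc, ih, map_pow, hs, one_pow]
      push_cast
      ring
  rcases k with k | k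
  · rw [Int.ofNat_eq_natCast, zpow_natCast, hnat]
  · rw [zpow_negSucc, h_inv D, map_pow, hs, one_pow, hnat, Int.negSucc_eq]
    push_cast
    ring

/-- The kernel. -/
def Ker (D : Dh ε h) : Subgroup Γ where
  carrier := {g | ε g = 1 ∧ h g = 0}
  one_mem' := ⟨map_one ε, h_one D⟩
  mul_mem' := by
    rintro a b ⟨ha, ha'⟩ ⟨hb, hb'⟩
    refine ⟨by rw [map_mul, ha, hb, one_mul], ?_⟩
    rw [D.coc, ha', hb']
    ring
  inv_mem' := by
    rintro a ⟨ha, ha'⟩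
    refine ⟨by rw [eps_inv, ha], ?_⟩
    rw [h_inv D, ha']
    ring

theorem mem_Ker (D : Dh ε h) (g : Γ) : g ∈ Ker D ↔ ε g = 1 ∧ h g = 0 := Iff.rfl

theorem Ker_normal (D : Dh ε h) : (Ker D).Normal := by
  constructor
  rintro k ⟨hk, hk'⟩ x
  refine ⟨?_, ?_⟩
  · rw [map_mul, map_mul, hk, mul_one, map_inv, mul_inv_cancel]
  · rw [D.coc, D.coc, map_mul, hk, mul_one, hk', h_inv D]
    have := eps_sq ε x
    linear_combination (- h x) * this

end

theorem d2 : D2Stmt.{u} := by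
  classical
  intro Γ _ ε h D s hs
  have hfin : Finite (Ker D) := D.ker
  have hN : (Ker D).Normal := Ker_normal D
  have hcard : Nat.card (Ker D) = ({g | ε g = 1 ∧ h g = 0} : Set Γ).ncard :=
    Nat.card_coe_set_eq ({g | ε g = 1 ∧ h g = 0} : Set Γ)
  rw [← hcard]
  set κ := Nat.card (Ker D) with hκ
  have hκpos : 0 < κ := Nat.card_pos
  have hcomm : ∀ k ∈ Ker D, s ^ (κ !) * k = k * s ^ (κ !) := by
    intro k hk
    let σ : Equiv.Perm (Ker D) := (MulAut.conjNormal (H := Ker D) s).toEquiv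
    have hσ : ∀ (j : ℕ) (x : Ker D), ((σ ^ j) x : Γ) = s ^ j * x * (s ^ j)⁻¹ := by
      intro j
      induction j with
      | zero => intro x; simp
      | succ j ih =>
        intro x
        rw [pow_succ', Equiv.Perm.mul_apply]
        change ((MulAut.conjNormal (H := Ker D) s ((σ ^ j) x) : Ker D) : Γ) = _
        rw [MulAut.conjNormal_apply, ih x, pow_succ']
        group
    have h1 : orderOf σ ∣ κ ! := by
      have := orderOf_dvd_natCard σ
      rwa [Nat.card_perm] at this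
    have h2 : σ ^ (κ !) = 1 := orderOf_dvd_iff_pow_eq_one.1 h1
    have h3 := hσ (κ !) ⟨k, hk⟩
    rw [h2, Equiv.Perm.one_apply] at h3
    have h4 : k = s ^ (κ !) * k * (s ^ (κ !))⁻¹ := h3
    exact (eq_mul_inv_iff_mul_eq.1 h4).symm
  refine ⟨κ ! * κ, Nat.mul_pos (Nat.factorial_pos κ) hκpos, le_refl _, ?_⟩
  intro γ
  have hε : ∀ k : ℤ, ε (s ^ k) = 1 := by
    intro k
    rw [map_zpow, hs, one_zpow]
  set c := γ⁻¹ * s ^ ((κ ! : ℕ) : ℤ) * γ * (s ^ ((ε γ : ℤ) * ((κ ! : ℕ) : ℤ)))⁻¹ with hcdef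
  have hc : c ∈ Ker D := by
    rw [mem_Ker, hcdef]
    refine ⟨?_, ?_⟩
    · rw [map_mul, map_mul, map_mul, map_inv, map_inv, hε, hε, mul_one, inv_mul_cancel, one_mul,
        inv_one]
    · rw [D.coc, D.coc, D.coc, h_inv D, h_inv D, map_mul, map_mul, hε, hε, eps_inv, mul_one,
        h_zpow D hs, h_zpow D hs]
      have h6 : ε (γ⁻¹ * s ^ ((κ ! : ℕ) : ℤ)) * ε γ = 1 := by
        rw [map_mul, hε, mul_one, map_inv, inv_mul_cancel]
      rw [h6]
      simp only [Units.val_one]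
      ring
  have h1 : γ⁻¹ * s ^ ((κ ! : ℕ) : ℤ) * γ = c * s ^ ((ε γ : ℤ) * ((κ ! : ℕ) : ℤ)) := by
    rw [hcdef]
    group
  have h2 : Commute c (s ^ ((ε γ : ℤ) * ((κ ! : ℕ) : ℤ))) := by
    have h3 : Commute c (s ^ (κ !)) := (hcomm c hc).symm
    have h4 : s ^ ((ε γ : ℤ) * ((κ ! : ℕ) : ℤ)) = (s ^ (κ !)) ^ (ε γ : ℤ) := by
      rw [mul_comm, zpow_mul, zpow_natCast]
    rw [h4]
    exact h3.zpow_right _
  have h3 : c ^ κ = 1 := by
    have h5 : (⟨c, hc⟩ : Ker D) ^ Nat.card (Ker D) = 1 := pow_card_eq_one'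
    exact congrArg (fun z : Ker D => (z : Γ)) h5
  have h4 : γ⁻¹ * s ^ (κ ! * κ) * γ = s ^ ((ε γ : ℤ) * ((κ ! * κ : ℕ) : ℤ)) := by
    have h5 : γ⁻¹ * s ^ (κ ! * κ) * γ = (γ⁻¹ * s ^ ((κ ! : ℕ) : ℤ) * γ) ^ κ := by
      have := conj_pow (a := γ⁻¹) (b := s ^ ((κ ! : ℕ) : ℤ)) (i := κ)
      rw [inv_inv] at this
      rw [this, zpow_natCast, ← pow_mul]
    rw [h5, h1, h2.mul_pow, h3, one_mul, ← zpow_natCast, ← zpow_mul]
    congr 1
    push_cast
    ring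
  rw [← h4]
  group

end Pool.Agent.Helper38.DIH
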