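import Pool.Agent.Helper38.DIH.D2

/-!
# Project NW+, packet DIH: D4
-/

set_option autoImplicit false

namespace Pool.Agent.Helper38.DIH

open Pool.Agent.Helper52.Wq2 Pool.Agent.Helper61.NW Pool.Agent.Helper74.DIH

universe u

theorem fib_finite {Γ : Type u} [Group Γ] {ε : Γ →* ℤˣ} {h : Γ → ℤ} (D : Dh ε h) (e : ℤˣ)
    (v : ℤ) : {g | ε g = e ∧ h g = v}.Finite := by
  by_cases hne : ({g | ε g = e ∧ h g = v} : Set Γ).Nonempty
  · obtain ⟨g₀, h1, h2⟩ := hne
    refine (D.ker.image (fun x => g₀ * x)).subset ?_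
    rintro g ⟨h3, h4⟩
    refine ⟨g₀⁻¹ * g, ⟨?_, ?_⟩, by simp⟩
    · rw [map_mul, map_inv, h1, h3, inv_mul_cancel]
    · rw [D.coc, h_inv D, eps_inv, h1, h2, h4]
      ring
  · rw [Set.not_nonempty_iff_eq_empty.1 hne]
    exact Set.finite_empty

theorem d4 : D4Stmt.{u} := by
  classical
  intro Γ _ ε h D y₀ H ψ hH hψ
  have hfin : {g | 0 ≤ 4 * h g + (ε g : ℤ) * y₀ ∧ 4 * h g + (ε g : ℤ) * y₀ < H}.Finite := by
    have h1 : ∀ e : ℤˣ, {g | ε g = e ∧ 0 ≤ 4 * h g + (e : ℤ) * y₀ ∧
        4 * h g + (e : ℤ) * y₀ < H}.Finite := by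
      intro e
      refine (Set.Finite.biUnion (Set.finite_Icc (-(|y₀| + H)) (|y₀| + H))
        (fun v _ => fib_finite D e v)).subset ?_
      rintro g ⟨h1, h2, h3⟩
      rw [Set.mem_iUnion₂]
      refine ⟨h g, ?_, h1, rfl⟩
      have h4 := neg_abs_le y₀
      have h5 := le_abs_self y₀
      rw [Set.mem_Icc]
      rcases Int.units_eq_one_or e with he | he
      · rw [he] at h2 h3
        simp only [Units.val_one, one_mul] at h2 h3
        constructor <;> omega
      · rw [he] at h2 h3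
        simp only [Units.val_neg, Units.val_one, neg_mul, one_mul] at h2 h3
        constructor <;> omega
    refine ((h1 1).union (h1 (-1))).subset ?_
    rintro g ⟨h2, h3⟩
    rcases Int.units_eq_one_or (ε g) with he | he
    · left
      rw [he] at h2 h3
      exact ⟨he, h2, h3⟩
    · right
      rw [he] at h2 h3
      exact ⟨he, h2, h3⟩
  have hz : ∀ (j : ℤ) (g : Γ), 4 * h ((ψ ^ j) g) + (ε ((ψ ^ j) g) : ℤ) * y₀ =
      4 * h g + (ε g : ℤ) * y₀ + j * H := by
    have hnat : ∀ (j : ℕ) (g : Γ), 4 * h ((ψ ^ j) g) + (ε ((ψ ^ j) g) : ℤ) * y₀ =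
        4 * h g + (ε g : ℤ) * y₀ + j * H := by
      intro j
      induction j with
      | zero => intro g; simp
      | succ j ih =>
        intro g
        rw [pow_succ, Equiv.Perm.mul_apply, ih, hψ]
        push_cast
        ring
    intro j g
    rcases j with j | j
    · exact hnat j g
    · have h1 := hnat (j + 1) ((ψ ^ (Int.negSucc j)) g)
      have h2 : (ψ ^ (j + 1)) ((ψ ^ (Int.negSucc j)) g) = g := by
        rw [zpow_negSucc]
        exact Equiv.apply_symm_apply (ψ ^ (j + 1)) g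
      rw [h2] at h1
      rw [Int.negSucc_eq]
      push_cast at h1 ⊢
      rw [Int.negSucc_eq] at h1
      linarith
  refine ⟨hfin, ?_, ?_⟩
  · refine Set.ncard_le_ncard_of_injOn (fun g => (ψ ^ (-(y₀ / H))) g) ?_ ?_ hfin
    · rintro g ⟨h1, h2⟩
      change 0 ≤ _ ∧ _ < H
      rw [hz, h1, h2]
      have h3 := Int.emod_nonneg y₀ (show H ≠ 0 by omega)
      have h4 := Int.emod_lt_of_pos y₀ hH
      have h5 := Int.emod_add_mul_ediv y₀ H
      simp only [Units.val_one]
      constructor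
      · linarith [mul_comm H (y₀ / H), neg_mul (y₀ / H) H]
      · linarith [mul_comm H (y₀ / H), neg_mul (y₀ / H) H]
    · intro a _ b _ hab
      exact (ψ ^ (-(y₀ / H))).injective hab
  · rw [Set.ncard_pos D.ker]
    exact ⟨1, map_one ε, h_one D⟩

end Pool.Agent.Helper38.DIH
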